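import Pool.Agent.MP_1246c0_nt.H12.SpecN

/-! Row TR: truncation of the prime sums. -/

namespace Pool.Agent.MP_1246c0_nt.H12

open Finset Filter Topology

namespace TR

open Classical in
lemma sm (Q : ℕ → Prop) {f : ℕ → ℝ} (hf : Summable f) :
    Summable fun p : ℕ => if p.Prime ∧ Q p then f p else 0 :=
  (hf.indicator {p | p.Prime ∧ Q p}).congr fun p => by
    by_cases h : p.Prime ∧ Q p
    · rw [if_pos h, Set.indicator_of_mem (s := {p | p.Prime ∧ Q p}) h]
    · rw [if_neg h, Set.indicator_of_notMem (s := {p | p.Prime ∧ Q p}) h]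

lemma sp_lin (Q : ℕ → Prop) {f g : ℕ → ℝ} (hf : Summable f) (hg : Summable g) (a b : ℝ) :
    SP' Q (fun p => a * f p + b * g p) = a * SP' Q f + b * SP' Q g := by
  unfold SP'
  rw [← tsum_mul_left, ← tsum_mul_left,
    ← ((sm Q hf).mul_left a).tsum_add ((sm Q hg).mul_left b)]
  refine tsum_congr fun p => ?_
  split_ifs <;> simp

lemma low (Q : ℕ → Prop) (S : Finset ℕ) {f w : ℕ → ℝ} (hf : Summable f)
    (hS : ∀ p ∈ S, p.Prime ∧ Q p) (h0 : ∀ p : ℕ, p.Prime → 0 ≤ f p) (h1 : ∀ p ∈ S, w p ≤ f p) :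
    ∑ p ∈ S, w p ≤ SP' Q f := by
  unfold SP'
  refine le_trans (sum_le_sum fun p hp => ?_) ((sm Q hf).sum_le_tsum S fun p _ => ?_)
  · rw [if_pos (hS p hp)]; exact h1 p hp
  · split_ifs with h
    · exact h0 p h.1
    · exact le_rfl

lemma up (Q : ℕ → Prop) (S : Finset ℕ) {f w u : ℕ → ℝ} (hf : Summable f) (hu : Summable u)
    (hS : ∀ p ∈ S, p.Prime ∧ Q p) (h0 : ∀ p : ℕ, p.Prime → 0 ≤ u p)
    (h1 : ∀ p ∈ S, f p ≤ w p + u p) (h2 : ∀ p : ℕ, p.Prime → Q p → p ∉ S → f p ≤ u p) :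
    SP' Q f ≤ ∑ p ∈ S, w p + SP' (fun _ => True) u := by
  classical
  have hw : HasSum (fun p => if p ∈ S then w p else 0) (∑ p ∈ S, w p) := by
    have := hasSum_sum_of_ne_finset_zero (f := fun p => if p ∈ S then w p else 0) (s := S)
      (L := .unconditional ℕ) fun p hp => if_neg hp
    rwa [sum_congr rfl fun p hp => if_pos hp] at this
  unfold SP'
  rw [← hw.tsum_eq, ← hw.summable.tsum_add (sm _ hu)]
  refine (sm Q hf).tsum_le_tsum (fun p => ?_) (hw.summable.add (sm _ hu))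
  by_cases hp : p ∈ S
  · rw [if_pos (hS p hp), if_pos hp, if_pos ⟨(hS p hp).1, trivial⟩]; exact h1 p hp
  · rw [if_neg hp, zero_add]
    by_cases hq : p.Prime
    · rw [if_pos (⟨hq, trivial⟩ : p.Prime ∧ True)]
      split_ifs with h
      · exact h2 p hq h.2 hp
      · exact h0 p hq
    · rw [if_neg fun h => hq h.1, if_neg fun h => hq h.1]

lemma pw_nonneg (σ : ℝ) (p : ℕ) : 0 ≤ pw σ p := Real.rpow_nonneg (Nat.cast_nonneg p) _

lemma pw_eq (σ : ℝ) {p : ℕ} (hp : 0 < p) : pw σ p = Real.exp (-(σ * Real.log p)) / p := by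
  have : (0 : ℝ) < p := Nat.cast_pos.2 hp
  rw [pw, Real.rpow_sub this, Real.rpow_neg_one, Real.rpow_def_of_pos this, Real.exp_neg,
    mul_comm]
  field_simp

lemma pw_anti {σ σ' : ℝ} (h : σ ≤ σ') {p : ℕ} (hp : 0 < p) : pw σ' p ≤ pw σ p :=
  Real.rpow_le_rpow_of_exponent_le (Nat.one_le_cast.2 hp) (by linarith)

lemma wb_eq {X p : ℕ} (h : YY X < p) : wb X p / p = pw (s1 X) p - pw (s2 X) p := by
  have hp : (0 : ℝ) < p := Nat.cast_pos.2 (by omega)
  have e : ∀ σ : ℝ, pw σ p = (p : ℝ) ^ (-σ) / p := fun σ => by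
    rw [pw, show -1 - σ = -σ - 1 by ring, Real.rpow_sub_one hp.ne']
  rw [wb, if_pos h, e, e, sub_div]

/-- the small primes -/
lemma small {σ σ' : ℝ} (h0 : 0 ≤ σ) (h1 : 0 ≤ σ') {p Y : ℕ} (hp : 0 < p) (hY : p ≤ Y) :
    pw σ p - pw σ' p ≤ 3 * σ' * (Real.log p * pw (1 / (Real.log Y + 1)) p) := by
  have hp' : (0 : ℝ) < p := Nat.cast_pos.2 hp
  have l0 : 0 ≤ Real.log p := Real.log_natCast_nonneg p
  have l1 : Real.log p ≤ Real.log Y := Real.log_le_log hp' (Nat.cast_le.2 hY)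
  have a1 : Real.exp (-(σ * Real.log p)) ≤ 1 := Real.exp_le_one_iff.2 (by nlinarith)
  have a2 := Real.add_one_le_exp (-(σ' * Real.log p))
  have a3 : Real.exp (-1) ≤ Real.exp (-(1 / (Real.log Y + 1) * Real.log p)) := by
    refine Real.exp_le_exp.2 (neg_le_neg ?_)
    rw [one_div, inv_mul_le_iff₀ (by linarith)]
    linarith
  have a4 : 1 ≤ 3 * Real.exp (-1) := by
    have := Real.exp_one_lt_d9
    rw [Real.exp_neg, ← div_eq_mul_inv, le_div_iff₀ (Real.exp_pos 1)]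
    linarith
  rw [pw_eq _ hp, pw_eq _ hp, pw_eq _ hp, ← sub_div, ← mul_div_assoc, ← mul_div_assoc]
  refine div_le_div_of_nonneg_right ?_ hp'.le
  have a5 := mul_nonneg h1 l0
  nlinarith [mul_le_mul_of_nonneg_left (a4.trans (mul_le_mul_of_nonneg_left a3 zero_le_three)) a5]

/-- the large primes -/
lemma large {σ E : ℝ} (h0 : 0 ≤ σ) {p : ℕ} (hp : ⌊Real.exp E⌋₊ < p) :
    pw σ p ≤ Real.exp (-(σ / 2 * E)) * pw (σ / 2) p := by
  have hp0 : 0 < p := by omega
  have h1 : Real.exp E < p := Nat.lt_of_floor_lt hp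
  have h2 : E ≤ Real.log p := (Real.le_log_iff_exp_le (Nat.cast_pos.2 hp0)).2 h1.le
  rw [pw_eq _ hp0, pw_eq _ hp0, ← mul_div_assoc, ← Real.exp_add]
  refine div_le_div_of_nonneg_right (Real.exp_le_exp.2 ?_) (Nat.cast_nonneg p)
  nlinarith

lemma mem_OP {N p : ℕ} : p ∈ OP N ↔ p ≤ N ∧ p.Prime ∧ p ≠ 2 := by
  simp [OP]

end TR

open TR in
theorem rowTR : OfTR := by
  rintro ⟨C, hC, hm⟩ hp ε hε
  filter_upwards [hp 0 (6 * (1 + C) / ε + C + 1 + 4 / ε), eventually_gt_atTop 1] with X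
    ⟨k1, k2, k3, k4, _, _, _, _, _, _, k5, _, _, _, _, k6⟩ hX Q _ hQ
  have hL : 0 < Real.log X := Real.log_pos (Nat.one_lt_cast.2 hX)
  have lY : 0 ≤ Real.log (YY X) := Real.log_natCast_nonneg _
  have c1 : 0 < 6 * (1 + C) / ε := by positivity
  have c2 : 0 < 4 / ε := by positivity
  obtain ⟨-, m1, -⟩ := hm _ k2 (k3.trans k4)
  obtain ⟨-, m2, -⟩ := hm _ (k2.trans_le k3) k4
  obtain ⟨m3, -, m4, -⟩ := hm (1 / (Real.log (YY X) + 1)) (by positivity)
    (by rw [div_le_one (by linarith)]; linarith)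
  obtain ⟨-, m5, -, m6, -⟩ := hm (s1 X / 2) (by linarith) (by linarith)
  set N := ⌊Real.exp (ll X * Real.log X)⌋₊ with hN
  set B := Real.exp (-(s1 X / 2 * (ll X * Real.log X))) with hB
  have hB0 : 0 < B := Real.exp_pos _
  have hS : ∀ p ∈ (OP N).filter Q, p.Prime ∧ Q p := fun p h =>
    ⟨(mem_OP.1 (mem_filter.1 h).1).2.1, (mem_filter.1 h).2⟩
  have hout : ∀ p : ℕ, p.Prime → Q p → p ∉ (OP N).filter Q → pw (s1 X) p ≤ B * pw (s1 X / 2) p := by
    intro p h1 h2 h3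
    refine large k2.le (not_le.1 fun h => h3 (mem_filter.2 ⟨mem_OP.2 ⟨h, h1, ?_⟩, h2⟩))
    rintro rfl
    exact hQ h2
  have e1 : 3 * s2 X * SP' (fun _ => True) (fun p => Real.log p * pw (1 / (Real.log (YY X) + 1)) p)
      ≤ ε / 2 := by
    rw [one_div_one_div] at m4
    have a1 : 6 * (1 + C) / ε * ((Real.log (YY X) + 1) * s2 X) ≤ 1 := by
      refine le_trans (mul_le_mul_of_nonneg_right ?_ (by nlinarith)) (by rwa [← mul_assoc])
      linarith
    rw [div_mul_eq_mul_div, div_le_one hε] at a1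
    have a2 := mul_le_mul_of_nonneg_left m4 (by linarith : 0 ≤ 3 * s2 X)
    nlinarith [mul_nonneg (mul_nonneg hC lY) (by linarith : 0 ≤ s2 X)]
  have e2 : B * SP' (fun _ => True) (pw (s1 X / 2)) ≤ ε / 2 := by
    have a1 : Real.log (1 / (s1 X / 2)) ≤ ll X := by
      refine Real.log_le_log (by positivity) ?_
      rw [s1, div_le_iff₀ (by positivity)]
      field_simp
      norm_num
    have a2 : B = (Real.exp (500 * ll X))⁻¹ := by
      rw [hB, s1, ← Real.exp_neg]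
      congr 2
      field_simp
      ring
    have a3 : 0 ≤ ll X := by linarith
    have a4 : (250 * ll X) ^ 2 ≤ Real.exp (500 * ll X) := by
      rw [show 500 * ll X = 250 * ll X + 250 * ll X by ring, Real.exp_add, sq]
      have := Real.add_one_le_exp (250 * ll X)
      exact mul_self_le_mul_self (by linarith) (by linarith)
    have a5 : SP' (fun _ => True) (pw (s1 X / 2)) ≤ 2 * ll X := by
      linarith [(abs_le.1 m6).2]
    have a6 : 4 ≤ ε * ll X := by
      have : 4 / ε ≤ ll X := by linarith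
      rwa [div_le_iff₀' hε] at this
    rw [a2, inv_mul_le_iff₀ (Real.exp_pos _)]
    nlinarith [mul_le_mul_of_nonneg_right a4 hε.le]
  have hd : ∀ p : ℕ, p.Prime → 0 ≤ pw (s1 X) p - pw (s2 X) p := fun p h =>
    sub_nonneg.2 (pw_anti k3 h.pos)
  have u1 : ∀ p : ℕ, 0 ≤ 3 * s2 X * (Real.log p * pw (1 / (Real.log (YY X) + 1)) p) := fun p =>
    mul_nonneg (by linarith) (mul_nonneg (Real.log_natCast_nonneg p) (pw_nonneg _ _))
  have u2 : ∀ p : ℕ, 0 ≤ B * pw (s1 X / 2) p := fun p => mul_nonneg hB0.le (pw_nonneg _ _)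
  refine ⟨low Q _ (m1.sub m2) hS hd fun p h => ?_, ?_,
    low Q _ m2 hS (fun p _ => pw_nonneg _ _) fun _ _ => le_rfl, ?_⟩
  · by_cases h' : YY X < p
    · exact (wb_eq h').le
    · rw [wb, if_neg h', zero_div]; exact hd p (hS p h).1
  · have := up Q _ (w := fun p => wb X p / p) (m1.sub m2)
      ((m3.mul_left (3 * s2 X)).add (m5.mul_left B)) hS (fun p _ => add_nonneg (u1 p) (u2 p))
      (fun p h => by
        by_cases h' : YY X < p
        · rw [wb_eq h']; linarith [u1 p, u2 p]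
        · rw [wb, if_neg h', zero_div]
          linarith [small k2.le (k2.le.trans k3) (hS p h).1.pos (not_lt.1 h'), u2 p])
      fun p h1 h2 h3 => by linarith [hout p h1 h2 h3, u1 p, pw_nonneg (s2 X) p]
    rw [sp_lin _ m3 m5] at this
    linarith
  · have := up Q _ (w := pw (s2 X)) m2
      ((m3.mul_left (3 * s2 X)).add (m5.mul_left B)) hS (fun p _ => add_nonneg (u1 p) (u2 p))
      (fun p _ => by linarith [u1 p, u2 p])
      fun p h1 h2 h3 => by linarith [hout p h1 h2 h3, u1 p, pw_anti k3 h1.pos]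
    rw [sp_lin _ m3 m5] at this
    linarith

end Pool.Agent.MP_1246c0_nt.H12
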